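import Pool.Agent.Lib.MP_7b562e_lc.Main

namespace Pool.Agent.Lib.MP_7b562e_lc.Variants.NoThreshold

open Pool.Agent.Lib.MP_7b562e_lc

/-- The hypothesis on `U` below is satisfiable. -/
theorem condOptimal_nonvacuous : ∃ U, CondOptimal U := exists_condOptimal

/-- The hypothesis on `V` below is satisfiable. -/
theorem oracleOptimal_nonvacuous : ∃ V, OracleOptimal V := exists_oracleOptimal

/-- For all optimal machines there is a set `A` such that for every `N` the difference
between the complexity given an arbitrary number at least `N` and the complexity relative to a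
worst infinite subset of `A` or of its complement is unbounded. -/
theorem result : ∀ (U : List Bool × ℕ →. List Bool) (V : List Bool × List Bool →. List Bool),
    CondOptimal U → OracleOptimal V →
    ∃ A : Set ℕ, ∀ N c : ℕ, ∃ σ : List Bool,
      (⨆ (X : Set ℕ) (_ : X.Infinite ∧ (X ⊆ A ∨ X ⊆ Aᶜ)), oracleC V X σ) + c <
        ⨆ (n : ℕ) (_ : N ≤ n), condC U σ n :=
  fun _ _ hU hV => main hU.1 hV

end Pool.Agent.Lib.MP_7b562e_lc.Variants.NoThreshold
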